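import Pool.Agent.L7h15.RQ5.Four

/-!
# Distinct quotients: `h(n) ≤ 6000000 n ^ (12 / 19)`
-/

set_option autoImplicit false

namespace Pool.Agent.L7h15.RQ5

open Pool.Agent.L7h35.RQ5

theorem h_bound (hVN : S_VN) (hMON : S_MON) (n : ℕ) (hn : 1 ≤ n) :
    (h n : ℝ) ≤ 6000000 * (n : ℝ) ^ ((12 : ℝ) / 19) := by
  obtain ⟨x, hx⟩ : ∃ x : ℝ, x = (n : ℝ) ^ ((1 : ℝ) / 19) := ⟨_, rfl⟩
  have hn1 : (1 : ℝ) ≤ n := by exact_mod_cast hn
  have hx1 : 1 ≤ x := by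
    rw [hx]
    exact Real.one_le_rpow hn1 (by norm_num)
  have hx19 : x ^ 19 = n := by
    rw [hx, ← Real.rpow_natCast, ← Real.rpow_mul (by linarith)]
    norm_num
  have hx12 : x ^ 12 = (n : ℝ) ^ ((12 : ℝ) / 19) := by
    rw [hx, ← Real.rpow_natCast, ← Real.rpow_mul (by linarith)]
    norm_num
  obtain ⟨N, hN⟩ : ∃ N : ℕ, N = ⌈x⌉₊ := ⟨_, rfl⟩
  have hN1 : x ≤ N := by
    rw [hN]
    exact Nat.le_ceil x
  have hN2 : (N : ℝ) ≤ 2 * x := by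
    have := Nat.ceil_lt_add_one (show 0 ≤ x by linarith)
    rw [hN]
    linarith
  have hN3 : 1 ≤ N := by
    have : (1 : ℝ) ≤ N := hx1.trans hN1
    exact_mod_cast this
  have h1 : n ≤ N ^ 19 := by
    have : (n : ℝ) ≤ (N : ℝ) ^ 19 := by
      rw [← hx19]
      exact pow_le_pow_left₀ (by linarith) hN1 19
    exact_mod_cast this
  have h2 : h n ≤ 1391 * N ^ 12 := (hMON n (N ^ 19) h1).trans (h_le hVN N hN3)
  have h3 : (h n : ℝ) ≤ 1391 * (N : ℝ) ^ 12 := by exact_mod_cast h2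
  have h4 : (N : ℝ) ^ 12 ≤ (2 * x) ^ 12 := pow_le_pow_left₀ (by positivity) hN2 12
  have h5 : (0 : ℝ) ≤ x ^ 12 := by positivity
  rw [mul_pow] at h4
  rw [← hx12]
  nlinarith

end Pool.Agent.L7h15.RQ5
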