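import Pool.Agent.L7h35.RQ5.Stm

/-!
# Distinct quotients: a four dimensional construction

The vectors `(t, t + a, b - t, e - a - b - t)`, `0 ≤ t < N ^ 8`, `0 ≤ a, b < N ^ 4`, `0 ≤ e < N ^ 3`, are
`N ^ 19` vectors with `O(N ^ 12)` positive parts of differences.
-/

set_option autoImplicit false

open Filter Topology Finset

namespace Pool.Agent.L7h15.RQ5

open Pool.Agent.L7h35.RQ5

/-- the vectors -/
def vec (t a b e : ℤ) : Fin 4 → ℤ := ![t, t + a, b - t, e - a - b - t]

/-- the set of the vectors -/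
def X4 (T M E : ℕ) : Finset (Fin 4 → ℤ) :=
  (range T ×ˢ (range M ×ˢ (range M ×ˢ range E))).image
    (fun p => vec (p.1 : ℤ) (p.2.1 : ℤ) (p.2.2.1 : ℤ) (p.2.2.2 : ℤ))

theorem card_X4 (T M E : ℕ) : (X4 T M E).card = T * (M * (M * E)) := by
  rw [X4, card_image_of_injective]
  · simp only [card_product, card_range]
  · rintro ⟨t, a, b, e⟩ ⟨t', a', b', e'⟩ h
    have h0 := congrFun h 0
    have h1 := congrFun h 1
    have h2 := congrFun h 2
    have h3 := congrFun h 3
    simp only [vec, Matrix.cons_val_zero, Matrix.cons_val_one, Matrix.cons_val] at h0 h1 h2 h3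
    have e1 : t = t' := by omega
    have e2 : a = a' := by omega
    have e3 : b = b' := by omega
    have e4 : e = e' := by omega
    rw [e1, e2, e3, e4]

/-- two long coordinates, first kind -/
def P1 (T M : ℕ) : Finset (Fin 4 → ℕ) :=
  (range T ×ˢ range (2 * M)).image (fun p => ![p.1, p.1 + p.2 - M, 0, 0])

/-- two long coordinates, second kind -/
def P2 (T M : ℕ) : Finset (Fin 4 → ℕ) :=
  (range (2 * T) ×ˢ range (8 * M)).image (fun p => ![0, 0, p.1, p.1 + p.2 - 4 * M])

/-- a coordinate is zero -/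
def P3 (M : ℕ) (i : Fin 4) : Finset (Fin 4 → ℕ) :=
  Fintype.piFinset (fun j => if j = i then {0} else range (7 * M))

/-- all coordinates are short -/
def P4 (E : ℕ) : Finset (Fin 4 → ℕ) := Fintype.piFinset (fun _ => range E)

/-- the possible positive parts -/
def P (T M E : ℕ) : Finset (Fin 4 → ℕ) := P1 T M ∪ (P2 T M ∪ (univ.biUnion (P3 M) ∪ P4 E))

theorem card_P3 (M : ℕ) (i : Fin 4) : (P3 M i).card = (7 * M) ^ 3 := by
  rw [P3, Fintype.card_piFinset, Fin.prod_univ_four]
  fin_cases i <;> simp <;> ring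

theorem card_P (T M E : ℕ) : (P T M E).card ≤ 18 * (T * M) + 4 * (7 * M) ^ 3 + E ^ 4 := by
  have h1 : (P1 T M).card ≤ T * (2 * M) := by
    refine card_image_le.trans ?_
    rw [card_product, card_range, card_range]
  have h2 : (P2 T M).card ≤ (2 * T) * (8 * M) := by
    refine card_image_le.trans ?_
    rw [card_product, card_range, card_range]
  have h3 : (univ.biUnion (P3 M)).card ≤ 4 * (7 * M) ^ 3 := by
    refine card_biUnion_le.trans ?_
    rw [Finset.sum_congr rfl fun i _ => card_P3 M i, sum_const, card_univ, Fintype.card_fin,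
      smul_eq_mul]
  have h4 : (P4 E).card = E ^ 4 := by
    rw [P4, Fintype.card_piFinset, Fin.prod_univ_four, card_range]
    ring
  have h5 : (P T M E).card ≤ (P1 T M).card + ((P2 T M).card +
      ((univ.biUnion (P3 M)).card + (P4 E).card)) := by
    refine (card_union_le _ _).trans (Nat.add_le_add_left ?_ _)
    refine (card_union_le _ _).trans (Nat.add_le_add_left ?_ _)
    exact card_union_le _ _
  rw [h4] at h5
  nlinarith

theorem vec_toNat (t a b e : ℤ) (z : Fin 4 → ℕ) (h : ∀ i, z i = (vec t a b e i).toNat) :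
    z 0 = t.toNat ∧ z 1 = (t + a).toNat ∧ z 2 = (b - t).toNat ∧ z 3 = (e - a - b - t).toNat :=
  ⟨h 0, h 1, h 2, h 3⟩

theorem mem_P (T M E : ℕ) (hEM : E ≤ M) (hMT : M ≤ T) (t a b e : ℤ)
    (ht : |t| < T) (ha : |a| < M) (hb : |b| < M) (he : |e| < E) (z : Fin 4 → ℕ)
    (h : ∀ i, z i = (vec t a b e i).toNat) : z ∈ P T M E := by
  obtain ⟨h0, h1, h2, h3⟩ := vec_toNat t a b e z h
  rw [abs_lt] at ht ha hb he
  by_cases c1 : 3 * (M : ℤ) < t
  · refine mem_union_left _ (mem_image.2 ⟨(t.toNat, (a + M).toNat), ?_, ?_⟩)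
    · rw [mem_product, mem_range, mem_range]
      constructor <;> dsimp only <;> omega
    · funext i
      fin_cases i
      · simp only [Fin.zero_eta, Matrix.cons_val_zero]
        omega
      · simp only [Fin.mk_one, Matrix.cons_val_one, Matrix.cons_val_zero]
        omega
      · show 0 = z 2
        omega
      · show 0 = z 3
        omega
  by_cases c2 : t < - (3 * (M : ℤ))
  · refine mem_union_right _ (mem_union_left _ (mem_image.2
      ⟨((b - t).toNat, (e - a - 2 * b + 4 * M).toNat), ?_, ?_⟩))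
    · rw [mem_product, mem_range, mem_range]
      constructor <;> dsimp only <;> omega
    · funext i
      fin_cases i
      · show 0 = z 0
        omega
      · show 0 = z 1
        omega
      · show (b - t).toNat = z 2
        omega
      · show (b - t).toNat + (e - a - 2 * b + 4 * M).toNat - 4 * M = z 3
        omega
  have hz : ∀ i, z i < 7 * M := by
    intro i
    fin_cases i
    · show z 0 < _
      omega
    · show z 1 < _
      omega
    · show z 2 < _
      omega
    · show z 3 < _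
      omega
  by_cases c3 : ∃ i, z i = 0
  · obtain ⟨i, hi⟩ := c3
    refine mem_union_right _ (mem_union_right _ (mem_union_left _
      (mem_biUnion.2 ⟨i, mem_univ _, ?_⟩)))
    rw [P3, Fintype.mem_piFinset]
    intro j
    by_cases hj : j = i
    · rw [if_pos hj, mem_singleton, hj, hi]
    · rw [if_neg hj, mem_range]
      exact hz j
  · push Not at c3
    refine mem_union_right _ (mem_union_right _ (mem_union_right _ ?_))
    rw [P4, Fintype.mem_piFinset]
    have g0 := c3 0
    have g1 := c3 1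
    have g2 := c3 2
    have g3 := c3 3
    intro i
    rw [mem_range]
    fin_cases i
    · show z 0 < _
      omega
    · show z 1 < _
      omega
    · show z 2 < _
      omega
    · show z 3 < _
      omega

theorem T_X4 (T M E : ℕ) (hEM : E ≤ M) (hMT : M ≤ T) :
    Pool.Agent.L7h35.RQ5.T (X4 T M E) ⊆ P T M E := by
  intro z hz
  have hz' : ∃ p ∈ X4 T M E ×ˢ X4 T M E, (fun i => (p.2 i - p.1 i).toNat) = z := by
    unfold Pool.Agent.L7h35.RQ5.T at hz
    exact (@Finset.mem_image _ _ (fun a b => Classical.propDecidable (a = b)) _ _ _).1 hz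
  obtain ⟨⟨x, y⟩, hxy, rfl⟩ := hz'
  rw [mem_product] at hxy
  obtain ⟨hx, hy⟩ := hxy
  dsimp only at hx hy
  rw [X4, mem_image] at hx hy
  obtain ⟨⟨t, a, b, e⟩, h1, rfl⟩ := hx
  obtain ⟨⟨t', a', b', e'⟩, h2, rfl⟩ := hy
  simp only [mem_product, mem_range] at h1 h2
  obtain ⟨p1, p2, p3, p4⟩ := h1
  obtain ⟨q1, q2, q3, q4⟩ := h2
  refine mem_P T M E hEM hMT ((t' : ℤ) - t) ((a' : ℤ) - a) ((b' : ℤ) - b) ((e' : ℤ) - e)
    (by rw [abs_lt]; omega) (by rw [abs_lt]; omega) (by rw [abs_lt]; omega)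
    (by rw [abs_lt]; omega) _ ?_
  intro i
  fin_cases i
  · show ((t' : ℤ) - t).toNat = ((t' : ℤ) - t).toNat
    rfl
  · show (((t' : ℤ) + a') - (t + a)).toNat = (((t' : ℤ) - t) + (a' - a)).toNat
    congr 1
    ring
  · show (((b' : ℤ) - t') - (b - t)).toNat = (((b' : ℤ) - b) - (t' - t)).toNat
    congr 1
    ring
  · show (((e' : ℤ) - a' - b' - t') - (e - a - b - t)).toNat =
      (((e' : ℤ) - e) - (a' - a) - (b' - b) - (t' - t)).toNat
    congr 1
    ring

/-- `h (N ^ 19) ≤ 1391 N ^ 12` -/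
theorem h_le (hVN : S_VN) (N : ℕ) (hN : 1 ≤ N) : h (N ^ 19) ≤ 1391 * N ^ 12 := by
  have h1 := hVN (Fin 4) inferInstance (X4 (N ^ 8) (N ^ 4) (N ^ 3))
  rw [card_X4, show N ^ 8 * (N ^ 4 * (N ^ 4 * N ^ 3)) = N ^ 19 by ring] at h1
  have h2 := card_le_card (T_X4 (N ^ 8) (N ^ 4) (N ^ 3)
    (Nat.pow_le_pow_right hN (by norm_num)) (Nat.pow_le_pow_right hN (by norm_num)))
  have h3 := card_P (N ^ 8) (N ^ 4) (N ^ 3)
  refine (h1.trans (h2.trans h3)).trans (le_of_eq ?_)
  ring

/-- `L ≤ 12 / 19` -/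
theorem upp4 (hVN : S_VN) : ∀ L : ℝ, (∀ n : ℕ, n ≠ 0 → (n : ℝ) ^ L ≤ h n) → L ≤ 12 / 19 := by
  intro L hL
  by_contra hlt
  push Not at hlt
  have hpos : 0 < 19 * L - 12 := by linarith
  have h1 : Tendsto (fun N : ℕ => (N : ℝ) ^ (19 * L - 12)) atTop atTop :=
    (tendsto_rpow_atTop hpos).comp tendsto_natCast_atTop_atTop
  obtain ⟨N, hN1, hN2⟩ := ((h1.eventually (eventually_gt_atTop (1391 : ℝ))).and
    (eventually_ge_atTop 1)).exists
  have hN0 : (0 : ℝ) < N := by exact_mod_cast hN2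
  have h2 := hL (N ^ 19) (by positivity)
  have h3 : (h (N ^ 19) : ℝ) ≤ 1391 * (N : ℝ) ^ 12 := by exact_mod_cast h_le hVN N hN2
  have h4 : (((N ^ 19 : ℕ) : ℝ)) ^ L = (N : ℝ) ^ (19 * L - 12) * (N : ℝ) ^ 12 := by
    rw [← Real.rpow_natCast (N : ℝ) 12, ← Real.rpow_add hN0, Nat.cast_pow,
      ← Real.rpow_natCast (N : ℝ) 19, ← Real.rpow_mul hN0.le]
    congr 1
    push_cast
    ring
  rw [h4] at h2
  have h5 : (0 : ℝ) < (N : ℝ) ^ 12 := by positivity
  have h6 : (N : ℝ) ^ (19 * L - 12) ≤ 1391 := by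
    by_contra h7
    push Not at h7
    have := mul_lt_mul_of_pos_right h7 h5
    linarith
  linarith

end Pool.Agent.L7h15.RQ5
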